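import Mathlib
import Pool.Agent.CMX.Main
import Pool.Agent.CMX.SPL
import Pool.Agent.CMX.DISTEQUI
import Pool.Agent.CMX.FP
import Pool.Agent.CMX.BOX
import Pool.Agent.CMX.KUM
import Pool.Agent.CMX.FLD
import Pool.Agent.CMX.FLIP
import Pool.Agent.CMX.SGN
import Pool.Agent.CMX.COUNT
import Pool.Agent.CMX.POS

set_option autoImplicit false

/-!
# Almost all CM extensions of totally real fields

Let `F_1, ..., F_r` be totally real number fields. For 100 per cent of the tuples `(a_1, ..., a_r)` of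
totally positive integers `a_l` of `F_l` the CM fields `K_l = F_l (√ (- a_l))` have the following
property: for ALL CM types `Φ_{l,s}` of the `K_l` with linearly independent sign vectors (for every
`l`) all Tate weights on all products of powers `∏ A_{l,s} ^ n_{l,s}`, where `A_{l,s}` has CM type
`(K_l, Φ_{l,s})`, are disjoint unions of Tate weights of codimension one.
-/

namespace Pool.Agent.Results.MP_90d181_ag.AlmostAllCMExtensions

open NumberField Finset Module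
open Pool.Agent.CMT (QBar IsCMType)
open Pool.Agent.CMX

/-- the coordinate vectors in the box of size `H` of the tuples of totally positive integers -/
def Box {r : ℕ} {F : Fin r → Type} [∀ l, Field (F l)] [∀ l, NumberField (F l)]
    {ι : Fin r → Type} [∀ l, Fintype (ι l)] (b : ∀ l, Basis (ι l) ℤ (𝓞 (F l))) (H : ℕ) :
    Set ((Σ l, ι l) → ℤ) :=
  {x | (∀ i, |x i| ≤ H) ∧ ∀ l, TotPos ((∑ i, x ⟨l, i⟩ • b l i : 𝓞 (F l)) : F l)}

/-- **100 per cent of the CM extensions of totally real fields.** -/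
theorem result : ∀ (r : ℕ) (F : Fin r → Type) [∀ l, Field (F l)] [∀ l, NumberField (F l)]
    [∀ l, IsTotallyReal (F l)] (ι : Fin r → Type) [∀ l, Fintype (ι l)]
    (b : ∀ l, Basis (ι l) ℤ (𝓞 (F l))) (ε : ℝ), 0 < ε → ∃ H₀ : ℕ, ∀ H : ℕ, H₀ ≤ H →
      (Box b H).Finite ∧ 0 < (Box b H).ncard ∧
      (({x ∈ Box b H | ¬ Good (fun l => ((∑ i, x ⟨l, i⟩ • b l i : 𝓞 (F l)) : F l))}.ncard : ℕ) : ℝ)
        ≤ ε * ((Box b H).ncard : ℕ) := by
  intro r F _ _ _ ι _ b ε hε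
  classical
  obtain ⟨c, hc, H₁, h1⟩ := p_POS (Fin r) F ι b
  obtain ⟨H₂, h2⟩ := main (p_COUNT p_SPL p_DIST p_EQUI p_FP p_BOX p_FLD) (p_FLIP p_KUM) p_SGN
    (Fin r) F ι b (ε * c) (mul_pos hε hc)
  refine ⟨H₁ + H₂, fun H hH => ?_⟩
  have hfin : {x : (Σ l, ι l) → ℤ | ∀ i, |x i| ≤ H}.Finite := by
    refine (Set.finite_Icc (fun _ => -(H : ℤ)) (fun _ => (H : ℤ))).subset fun x hx => ?_
    rw [Set.mem_Icc]
    exact ⟨fun i => (abs_le.1 (hx i)).1, fun i => (abs_le.1 (hx i)).2⟩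
  have hfB : (Box b H).Finite := hfin.subset fun x hx => hx.1
  have h3 : c * (2 * H + 1 : ℝ) ^ Fintype.card (Σ l, ι l) ≤ ((Box b H).ncard : ℕ) :=
    h1 H (by omega)
  refine ⟨hfB, ?_, ?_⟩
  · have h4 : (0 : ℝ) < ((Box b H).ncard : ℕ) := lt_of_lt_of_le (by positivity) h3
    exact_mod_cast h4
  · have h4 : (({x ∈ Box b H | ¬ Good (fun l => ((∑ i, x ⟨l, i⟩ • b l i : 𝓞 (F l)) :
        F l))}.ncard : ℕ) : ℝ) ≤ (({x : (Σ l, ι l) → ℤ | (∀ i, |x i| ≤ H) ∧
        ¬ Good (fun l => ((∑ i, x ⟨l, i⟩ • b l i : 𝓞 (F l)) : F l))}.ncard : ℕ) : ℝ) := by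
      refine Nat.cast_le.2 (Set.ncard_le_ncard ?_ (hfin.subset fun x hx => hx.1))
      exact fun x hx => ⟨hx.1.1, hx.2⟩
    calc _ ≤ _ := h4
      _ ≤ ε * c * (2 * H + 1 : ℝ) ^ Fintype.card (Σ l, ι l) := h2 H (by omega)
      _ = ε * (c * (2 * H + 1 : ℝ) ^ Fintype.card (Σ l, ι l)) := by ring
      _ ≤ ε * ((Box b H).ncard : ℕ) := mul_le_mul_of_nonneg_left h3 hε.le

end Pool.Agent.Results.MP_90d181_ag.AlmostAllCMExtensions
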