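import Mathlib
import Pool.Agent.CMT.Main

set_option autoImplicit false

namespace Pool.Agent.Results.MP_90d181_ag.AlmostAllCMTypes

open NumberField Pool.Agent.CMT

/-- **For almost all CM types of an abelian CM field all Tate classes, on all powers, are products
of divisor classes.** Let `K` be an abelian CM field of degree `2 g`. The proportion, among its CM
types `Φ` (there are `2 ^ g` of them), of those which are not primitive or for which some weight `Δ`
of a Tate class (in Pohlmann's description, `TateWeight`), of some codimension on some power, is not a
disjoint union of weights of codimension one, is at most `n₂ / √g + (4 n₄ + 6 n₆ + 648) / g`, where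
`n_k` is the number of cyclic subfields of `K` of degree `k` that are not real. -/
theorem result : ∀ (K : Type) [Field K] [NumberField K] [IsAbelianGalois ℚ K]
    [IsTotallyComplex K] (g : ℕ), Module.finrank ℚ K = 2 * g →
    (Nat.card {Φ : Finset (K →+* QBar) // IsCMType K Φ ∧
      ¬ (IsPrimitive Φ ∧ TateByDivisors Φ)} : ℝ) ≤
      Nat.card {Φ : Finset (K →+* QBar) // IsCMType K Φ} *
        (numIm K 2 / Real.sqrt g + (4 * numIm K 4 + 6 * numIm K 6 + 648) / g) := by
  intro K _ _ _ _ g hg
  have h1 := bad_le_numIm K hg
  have h2 : (Nat.card {Φ : Finset (K →+* QBar) // IsCMType K Φ} : ℝ) = 2 ^ g := by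
    rw [card_types K hg]
    push_cast
    rfl
  rw [h2]
  exact h1

end Pool.Agent.Results.MP_90d181_ag.AlmostAllCMTypes
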