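import Mathlib
import Pool.Agent.CMV.Final

set_option autoImplicit false

namespace Pool.Agent.Results.MP_90d181_ag.FewDegenerate

open NumberField Module Pool.Agent.CMT Pool.Agent.CMTP Pool.Agent.CMV

/-- **Almost all CM types of all CM fields with `[L : L₀] ≥ 8`.** There is an absolute constant `C`
such that for every CM field `K`, with any Galois closure: let `L` be the Galois closure of `K`
and `L₀` the Galois closure of the maximal real subfield of `K`, in the algebraic closure of `ℚ`.
If `[L : L₀] ≥ 8`, then the proportion of the CM types `Φ` of `K` that are induced from a proper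
subfield, or for which some Tate weight on some power is not a disjoint union of Tate weights of
codimension one, is at most `C / √([K : ℚ] [L : L₀])`. -/
theorem result : ∃ C : ℝ, 0 < C ∧ ∀ (K : Type) [Field K] [NumberField K] [IsCMField K],
    8 * finrank ℚ (IntermediateField.normalClosure ℚ (maximalRealSubfield K) QBar) ≤
      finrank ℚ (IntermediateField.normalClosure ℚ K QBar) →
    (Nat.card {Φ : Finset (K →+* QBar) // IsCMType K Φ ∧
        ¬ (NotInduced Φ ∧ TateByDivisors Φ)} : ℝ) *
      √((finrank ℚ K : ℝ) * finrank ℚ (IntermediateField.normalClosure ℚ K QBar)) ≤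
    C * √(finrank ℚ (IntermediateField.normalClosure ℚ (maximalRealSubfield K) QBar) : ℝ) *
      Nat.card {Φ : Finset (K →+* QBar) // IsCMType K Φ} := by
  classical
  obtain ⟨C, hC, h⟩ := few_degenerate
  refine ⟨C, hC, ?_⟩
  intro K _ _ _ h8
  refine le_trans ?_ (h K h8)
  refine mul_le_mul_of_nonneg_right ?_ (Real.sqrt_nonneg _)
  have h1 : Nat.card {Φ : Finset (K →+* QBar) // IsCMType K Φ ∧
      ¬ (NotInduced Φ ∧ TateByDivisors Φ)} ≤
      Nat.card {Φ : Finset (K →+* QBar) // IsCMType K Φ ∧ ¬ NDeg (HG K) cc Φ} := by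
    refine Nat.card_le_card_of_injective (fun Φ => ⟨Φ.1, Φ.2.1, fun hnd => Φ.2.2
      ⟨notInduced_of_ndeg Φ.2.1 hnd, tateByDivisors_of_ndeg Φ.2.1 hnd⟩⟩) ?_
    intro Φ Ψ hΦΨ
    exact Subtype.ext (congrArg (fun x : {Φ : Finset (K →+* QBar) // IsCMType K Φ ∧
      ¬ NDeg (HG K) cc Φ} => x.1) hΦΨ)
  exact_mod_cast h1

end Pool.Agent.Results.MP_90d181_ag.FewDegenerate
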