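import Mathlib
import Pool.Agent.OneRed.CorOrd

set_option autoImplicit false

/-!
# Almost all ordinary reduction types of all CM fields with `[L : L₀] ≥ 8`
-/

namespace Pool.Agent.Results.MP_90d181_ag.FewDegenerateReductions

open NumberField Module Pool.Agent.OneRed
open Pool.Agent.CMT (QBar IsCMType)

/-- **Almost all ordinary reduction types.** There is an absolute constant `C` such that for every
CM field `K`, with `L` and `L₀` the Galois closures of `K` and of its maximal real subfield in the
algebraic closure of `ℚ`, and `[L : L₀] ≥ 8`, all but a proportion `C / √([K : ℚ] [L : L₀])` of the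
CM types `Φ` of `K` are good: for every abelian variety over every number field which has at one
place an ordinary reduction of type `(K, Φ)`, all Tate classes of all codimensions on all powers are
combinations of products of Tate classes of codimension one. -/
theorem result : ∃ C : ℝ, 0 < C ∧ ∀ (K : Type) [Field K] [NumberField K] [IsCMField K],
    8 * finrank ℚ (IntermediateField.normalClosure ℚ (maximalRealSubfield K) QBar) ≤
      finrank ℚ (IntermediateField.normalClosure ℚ K QBar) →
    (Nat.card {Φ : Finset (K →+* QBar) // IsCMType K Φ ∧ ¬ GoodType Φ} : ℝ) *
      √((finrank ℚ K : ℝ) * finrank ℚ (IntermediateField.normalClosure ℚ K QBar)) ≤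
    C * √(finrank ℚ (IntermediateField.normalClosure ℚ (maximalRealSubfield K) QBar) : ℝ) *
      Nat.card {Φ : Finset (K →+* QBar) // IsCMType K Φ} :=
  card_few

end Pool.Agent.Results.MP_90d181_ag.FewDegenerateReductions
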