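import Mathlib
import Pool.Agent.FFT.CF
import Pool.Agent.FFT.COMBA
import Pool.Agent.FFT.PAR
import Pool.Agent.FFT.SIGNh3
import Pool.Agent.FFT.DISC
import Pool.Agent.FFT.DNI
import Pool.Agent.FFT.FINF
import Pool.Agent.FFT.MATCH

set_option autoImplicit false

/-!
# CM fields of 2-power degree with independent discriminants

Let `K_1, ..., K_r` be CM fields of 2-power degrees such that no non-empty product of their
discriminants is a square. Then for ALL CM types `Φ_j` of `K_j` no `Φ_j` is induced from a proper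
subfield, and all Tate weights, of all codimensions, on all products of powers `∏ A_j ^ n_j`, where
`A_j` has CM type `(K_j, Φ_j)`, are disjoint unions of Tate weights of codimension one.
-/

namespace Pool.Agent.Results.MP_90d181_ag.IndependentDiscriminants

open NumberField Module Pool.Agent.FFT
open Pool.Agent.CMT (QBar IsCMType)
open Pool.Agent.CMTP (NotInduced notInduced_of_ndeg)

/-- **Tate classes for CM fields of 2-power degree with independent discriminants.** -/
theorem result : ∀ (r : ℕ) (K : Fin r → Type) [∀ j, Field (K j)] [∀ j, NumberField (K j)]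
    [∀ j, IsCMField (K j)], (∀ j, ∃ m : ℕ, finrank ℚ (K j) = 2 ^ m) →
    (∀ S : Finset (Fin r), S.Nonempty → ¬ IsSquare (∏ j ∈ S, discr (K j))) →
    ∀ Φ : ∀ j, Finset (K j →+* QBar), (∀ j, IsCMType (K j) (Φ j)) →
      (∀ j, NotInduced (Φ j)) ∧ CMByDivisors Φ := by
  intro r K _ _ _ h1 h2 Φ h3
  refine ⟨fun j => ?_, p_CF p_COMBA (p_PAR p_SIGN' p_DISC) (p_FINC p_MATCH) (Fin r) K h1 h2 Φ h3⟩
  obtain ⟨m, hm⟩ := h1 j
  exact notInduced_of_ndeg (h3 j) (ndeg_of_disc p_SIGN' m hm
    (by simpa using h2 {j} (Finset.singleton_nonempty j)) (Φ j) (h3 j))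

end Pool.Agent.Results.MP_90d181_ag.IndependentDiscriminants
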