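import Mathlib
import Pool.Agent.LCD.Final

set_option autoImplicit false

/-!
# Tate classes of low codimension for almost all CM types of all CM fields
-/

namespace Pool.Agent.Results.MP_90d181_ag.LowCodimension

open NumberField Module Pool.Agent.LCD
open Pool.Agent.CMT (QBar IsCMType)
open Pool.Agent.CMTP (NotInduced)
open Pool.Agent.FFT (Idx CMWeight CMDivisorial)

/-- **Tate classes of low codimension.** There is an absolute constant `c > 0` such that for all
families `K j` of CM fields (no condition, repetitions allowed) of degrees at least `2 g`, with the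
sum of the degrees `N`, and all `i ≥ 1` with `i (1 + log N) ^ 4 ≤ c g`: for all but a proportion
`exp (- c g / (i (1 + log N)))` of the tuples of CM types `Φ j` of `K j`, no `Φ j` is induced from a
proper subfield, and every Tate weight of codimension at most `i` on every product of powers
`∏ A_j ^ n_j` (`A_j` of CM type `(K j, Φ j)`) is a disjoint union of Tate weights of codimension
one. -/
theorem result : ∃ c : ℝ, 0 < c ∧ ∀ (r : ℕ) (K : Fin r → Type) [∀ j, Field (K j)]
    [∀ j, NumberField (K j)] [∀ j, IsCMField (K j)] (g i : ℕ), 1 ≤ i →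
    (∀ j, 2 * g ≤ finrank ℚ (K j)) →
    i * (1 + Real.log (∑ j, finrank ℚ (K j) : ℕ)) ^ 4 ≤ c * g →
    (Nat.card {Φ : ∀ j, Finset (K j →+* QBar) // (∀ j, IsCMType (K j) (Φ j)) ∧
        ¬ ((∀ j, NotInduced (Φ j)) ∧ ∀ (n : Fin r → ℕ) (i' : ℕ) (Δ : Finset (Idx K n)), i' ≤ i →
          CMWeight Φ i' Δ → CMDivisorial Φ Δ)} : ℝ) ≤
      Real.exp (-(c * g / (i * (1 + Real.log (∑ j, finrank ℚ (K j) : ℕ))))) *
        Nat.card {Φ : ∀ j, Finset (K j →+* QBar) // ∀ j, IsCMType (K j) (Φ j)} := by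
  classical
  obtain ⟨c, hc, h⟩ := cnt
  refine ⟨c, hc, ?_⟩
  intro r K _ _ _ g i hi hg hlog
  refine le_trans ?_ (h (Fin r) K g i hi hg hlog)
  have h1 : Nat.card {Φ : ∀ j, Finset (K j →+* QBar) // (∀ j, IsCMType (K j) (Φ j)) ∧
        ¬ ((∀ j, NotInduced (Φ j)) ∧ ∀ (n : Fin r → ℕ) (i' : ℕ) (Δ : Finset (Idx K n)), i' ≤ i →
          CMWeight Φ i' Δ → CMDivisorial Φ Δ)} ≤
      Nat.card {Φ : ∀ j, Finset (K j →+* QBar) // (∀ j, IsCMType (K j) (Φ j)) ∧ ¬ Low Φ i} := by
    refine Nat.card_le_card_of_injective (fun Φ => ⟨Φ.1, Φ.2.1, fun hlow => Φ.2.2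
      (tLOWT (Fin r) K Φ.1 Φ.2.1 i hi hlow)⟩) ?_
    intro Φ Ψ hΦΨ
    exact Subtype.ext (congrArg (fun x : {Φ : ∀ j, Finset (K j →+* QBar) //
      (∀ j, IsCMType (K j) (Φ j)) ∧ ¬ Low Φ i} => x.1) hΦΨ)
  exact_mod_cast h1

end Pool.Agent.Results.MP_90d181_ag.LowCodimension
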