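import Mathlib
import Pool.Agent.MBK.DefsUp
import Pool.Agent.MBK.MAINUP
import Pool.Agent.MBK.ALM
import Pool.Agent.MBK.FRBR
import Pool.Agent.MBK.ACT
import Pool.Agent.MBK.DENS
import Pool.Agent.MBK.DENSJ
import Pool.Agent.MBK.RED
import Pool.Agent.MBK.GRP
import Pool.Agent.MBK.REAL
import Pool.Agent.MBK.CMF
import Pool.Agent.MBK.DEG
import Pool.Agent.MBK.CONST
import Pool.Agent.MBK.WEIL
import Pool.Agent.MBK.FULL
import Pool.Agent.MBK.CONV
import Pool.Agent.MBK.IND
import Pool.Agent.MBK.CNT

set_option autoImplicit false

/-!
# Abelian varieties with one good reduction with multiplication by a given CM field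

Let `K` be any CM field, with maximal real subfield `F`, and `N ≥ 2`. For almost all monic
polynomials `h` of degree `N` over the integers of `F` all of whose conjugates have only real roots
(ordered by the size of the coordinates of the coefficients) the fields `K' = K(θ)`, where `θ` is a
root of `h`, are CM fields of degree `N` over `K`, and for every Weil number `π` in `K'` no power of
which lies in `K`, and every abelian variety `A` over a number field for which `π` is the Frobenius
element at one place of good reduction: the Tate classes of codimension less than `N / 2` on all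
powers of `A` are generated by divisor classes, and the Tate classes of all codimensions are if the
conjugates of the norm of `π` to `K` satisfy no odd relation. If `π` is ordinary, this holds for all
but a small proportion (at most about `g / √N`, where `g = [F : ℚ]`) of the types of `π`; and the
CM types of `K'` whose abelian varieties are simple and have only divisorial Tate classes on all
powers are determined.
-/

namespace Pool.Agent.Results.MP_90d181_ag.MultiplicationByK

open NumberField Finset Module
open Pool.Agent.MBK

/-- **One good reduction in 100 per cent of the CM fields which contain a given CM field.** -/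
theorem result : ∀ (F K ι : Type) [Field F] [NumberField F] [IsTotallyReal F] [Field K]
    [NumberField K] [IsCMField K] [Algebra F K] [Fintype ι] (b : Basis ι ℤ (𝓞 F)),
    finrank F K = 2 → ∀ N : ℕ, 2 ≤ N → ∀ ε : ℝ, 0 < ε → ∃ H₀ : ℕ, ∀ H : ℕ, H₀ ≤ H →
      (Box b N H).Finite ∧ 0 < (Box b N H).ncard ∧
      (({x ∈ Box b N H | ¬ Good₁ F K N (hpoly b x)}.ncard : ℕ) : ℝ) ≤
        ε * ((Box b N H).ncard : ℕ) :=
  p_MAIN₁ (p_ALM (p_DENSJ p_DENS) p_RED (p_GRP p_FRBR ACT_.p_SEPA ACT_.p_ACT)) p_REAL p_CMF p_DEG p_HSW
    (p_WEIL p_CONST) (p_FULL p_CONST) p_CONV p_IND p_CNT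

end Pool.Agent.Results.MP_90d181_ag.MultiplicationByK
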