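import Mathlib
import Pool.Agent.FQW.Targets
import Pool.Agent.FQW.FINP
import Pool.Agent.FQW.LOWA
import Pool.Agent.FQW.LOWER
import Pool.Agent.FQW.STEP
import Pool.Agent.FQW.TOP
import Pool.Agent.FQW.LAT
import Pool.Agent.FQW.DET
import Pool.Agent.FQW.STAR
import Pool.Agent.FQW.TLA
import Pool.Agent.FQW.TLOW
import Pool.Agent.FQW.TUA
import Pool.Agent.FQW.TUB
import Pool.Agent.FQW.TUP
import Pool.Agent.FQW.PAA
import Pool.Agent.FQW.PAB
import Pool.Agent.FQW.PAIRS
import Pool.Agent.FQW.TYP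
import Pool.Agent.FQW.CLUS
import Pool.Agent.FQW.E2A
import Pool.Agent.FQW.E2B
import Pool.Agent.FQW.E2C
import Pool.Agent.FQW.LAM
import Pool.Agent.FQW.E4
import Pool.Agent.FQW.E5A
import Pool.Agent.FQW.E5B
import Pool.Agent.FQW.E5
import Pool.Agent.FQW.E6A
import Pool.Agent.FQW.E6B
import Pool.Agent.FQW.E7
import Pool.Agent.FQW.E8
import Pool.Agent.FQW.KPA
import Pool.Agent.FQW.KP
import Pool.Agent.FQW.REDA
import Pool.Agent.FQW.RED
import Pool.Agent.FQW.PRG
import Pool.Agent.FQW.IRC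
import Pool.Agent.FQW.VC
import Pool.Agent.FQW.CNT
import Pool.Agent.FQW.PDV
import Pool.Agent.FQW.PD
import Pool.Agent.FQW.SMA
import Pool.Agent.FQW.SM
import Pool.Agent.FQW.BOX
import Pool.Agent.FQW.FRB1
import Pool.Agent.FQW.CV
import Pool.Agent.RFC.Targets2
import Pool.Agent.RFC.ABS
import Pool.Agent.RFC.LCELL
import Pool.Agent.RFC.DENS
import Pool.Agent.RFC.EMB
import Pool.Agent.RFC.QUAD
import Pool.Agent.RFC.ABS2
import Pool.Agent.RFC.SPLIT
import Pool.Agent.RFC.LOW
import Pool.Agent.RFC.HALF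
import Pool.Agent.RFC.CMC2

set_option autoImplicit false

/-!
# CM fields with a random maximal real subfield

Fix `q ≥ 2`. There is `c > 0` such that, for all large `g`, for all but a proportion `exp (-c g)` of
the monic integral polynomials `h` of degree `g` all of whose complex roots are real and of absolute
value at most `2 √q` we have: `h` is irreducible, and for every CM field of degree `2 g` which contains
a root of `h` (all CM fields with the maximal real subfield `ℚ[x] / (h)`) and for every CM type of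
this field all Tate weights, of all codimensions, on all powers are disjoint unions of Tate weights of
codimension one, except for the types of Weil type, where they are disjoint unions of Tate weights of
codimension one and Weil weights; there is no exception in codimensions less than `g / 2`.
-/

namespace Pool.Agent.Results.MP_90d181_ag.RandomRealFields

open Polynomial
open Pool.Agent.AWP (poly IsRealWeil)
open Pool.Agent.FQW
open Pool.Agent.RFC

theorem p_TOP : T_TOP := tTOP tFINP tSTEP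

theorem p_LOWER : T_LOWER := tLOWER tLOWA tFINP

theorem p_STAR : T_STAR := tSTAR tFINP p_TOP tLAT tDET

theorem p_TLOW : T_TLOW := tTLOW tFINP p_LOWER p_STAR tTLA

theorem p_TUP : T_TUP := tTUP tTUA tTUB

theorem p_PAIRS : T_PAIRS := tPAIRS tFINP p_LOWER p_STAR (tPAA p_TUP) tPAB

theorem p_TYP : T_TYP := tTYP tFINP p_TLOW p_PAIRS

theorem p_KPA : T_KPA := tKPA tFINP tCLUS p_TUP (tE2A tCLUS) (tE2B tCLUS) (tE2C tCLUS p_TUP)
  (tE4 tLAM) (tE5 tE5A tE5B) tE6A tE6B

theorem p_KP : T_KP := tKP tFINP tCLUS tE7 tE8 p_KPA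

theorem p_PD : T_PD := tPD tVC tCNT tIRC (tPDV tVC tCNT)

theorem p_BOX : T_BOX := tBOX p_PD (tSM tSMA)

theorem p_LCELL : T_LCELL := tLCELL (tRED tFINP p_TOP tREDA) tPRG p_BOX tFRB1

theorem p_DENS : T_DENS := tDENS tFINP p_LOWER p_TYP p_KP p_LCELL tCV

theorem p_ABS2 : T_ABS2 := tABS2 tABS

theorem p_CMC2 : T_CMC2 := tCMC2 tEMB tQUAD tHALF p_ABS2 tSPLIT tLOW

/-- **CM abelian varieties with real multiplication by almost all totally real fields.** -/
theorem result : ∀ q : ℕ, 2 ≤ q → ∃ c : ℝ, 0 < c ∧ ∃ g₀ : ℕ, ∀ g : ℕ, g₀ ≤ g →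
    {b : Fin g → ℤ | IsRealWeil q b}.Finite ∧ 0 < {b : Fin g → ℤ | IsRealWeil q b}.ncard ∧
    (({b : Fin g → ℤ | IsRealWeil q b ∧ ¬ (Irreducible (poly b) ∧ GoodCM2 b)}.ncard : ℕ) : ℝ) ≤
      Real.exp (-(c * g)) * ({b : Fin g → ℤ | IsRealWeil q b}.ncard : ℕ) := by
  intro q hq
  obtain ⟨c, hc, g₀, h⟩ := p_DENS q hq
  refine ⟨c, hc, g₀, fun g hg => ?_⟩
  obtain ⟨h1, h2, h3⟩ := h g hg
  refine ⟨h1, h2, le_trans ?_ h3⟩
  norm_cast
  refine Set.ncard_le_ncard ?_ (h1.subset fun b hb => hb.1)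
  rintro b ⟨hb, hn⟩
  refine ⟨hb, fun hL => hn ⟨hL.1, p_CMC2 g b hL fun z hz => ?_⟩⟩
  obtain ⟨y, hy, -⟩ := hb z hz
  exact ⟨y, hy⟩

end Pool.Agent.Results.MP_90d181_ag.RandomRealFields
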